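import Mathlib
import Pool.Agent.W926.PS.Stm
import Pool.Agent.W926.PS.Base

set_option autoImplicit false

namespace W654.PS

open Finset W926.PS

theorem eight : S_EIGHT := by
  classical
  intro r a F st hU x hx
  set D : Finset (Pos r a) := univ.filter (fun p => ∃ i k, FD st (x i) (x k) p) with hD
  have hinj : Function.Injective (fun (i : Fin 6) (p : {p // p ∈ D}) => x i p.1.1 p.1.2) := by
    intro i k hik
    by_contra hne
    obtain ⟨p, hp⟩ := exists_FD st (fun e => hne (hx e) : x i ≠ x k)
    have hpD : p ∈ D := by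
      rw [hD, mem_filter]
      exact ⟨mem_univ _, i, k, hp⟩
    exact hp.2 (congrFun hik ⟨p, hpD⟩)
  have hcard : 3 ≤ D.card := by
    have h1 := Fintype.card_le_of_injective _ hinj
    simp only [Fintype.card_fin, Fintype.card_fun, Fintype.card_bool, Fintype.card_coe] at h1
    by_contra hlt
    push Not at hlt
    have : 2 ^ D.card ≤ 2 ^ 2 := Nat.pow_le_pow_right (by norm_num) (by omega)
    omega
  obtain ⟨S, hSD, hS⟩ := Finset.exists_subset_card_eq hcard
  have hkey : ∀ b : {p // p ∈ S} → Bool, ∃ key ∈ F, ∃ φ' : Pos r a → Bool,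
      (∀ s : {p // p ∈ S}, φ' s.1 = b s) ∧ PosKey st φ' key := by
    intro b
    obtain ⟨key, hk, φ', h1, h2⟩ := hU S hS.le (fun p => if h : p ∈ S then b ⟨p, h⟩ else false)
    refine ⟨key, hk, φ', fun s => ?_, h2⟩
    rw [h1 s.1 s.2, dif_pos s.2]
  choose key hkF φ hφ hpk using hkey
  have := le_nq F (fun key => ∃ φ, PosKey st φ key) x key hkF (fun b => ⟨φ b, hpk b⟩) (by
    intro s t hst
    funext p
    have hpD := hSD p.2
    rw [hD, mem_filter] at hpD
    obtain ⟨-, i, l, hfd⟩ := hpD
    have e1 := hpk s _ _ _ hfd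
    have e2 := hpk t _ _ _ hfd
    have e3 := ipat_lt hst i l
    rw [hφ s p] at e1
    rw [hφ t p] at e2
    have e4 : (x i p.1.1 p.1.2 = s p ↔ x i p.1.1 p.1.2 = t p) := e1.symm.trans (e3.trans e2)
    revert e4
    cases x i p.1.1 p.1.2 <;> cases s p <;> cases t p <;> simp)
  simp only [Fintype.card_fun, Fintype.card_bool, Fintype.card_coe, hS] at this
  exact this

end W654.PS
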